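import Pool.Agent.MP_57341d_ag.Mg.H73_Main

/-! A lower bound for the transcendence degree of the field of definition, in de Rham cohomology,
of a rational subspace of the first Betti cohomology of an abelian variety. -/

open Module GPC73

namespace Pool.Agent.Results.MP_57341d_ag.AbelianVarieties

theorem result {g N : ℕ} (A : AbVar g N) (V : Submodule ℚ (Fin (2 * g) → ℚ)) (hV : V ≠ ⊥)
    (hU : ∀ U : Submodule ℂ (Fin g → ℂ), U ≠ ⊤ → A.IsSub U →
      finrank ℚ (V ⊓ A.ann U : Submodule ℚ _) + finrank ℂ U < g)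
    (K : IntermediateField ℚ ℂ)
    (hK : ∀ v ∈ V, (fun j => (v j : ℂ)) ∈ Submodule.span ℂ
      ((Submodule.span K A.dR : Set (Fin (2 * g) → ℂ)) ∩
        Submodule.span ℂ ((fun (v : Fin (2 * g) → ℚ) j => (v j : ℂ)) '' V))) :
    2 ≤ Algebra.trdeg ℚ K :=
  two_le A V hV hU K hK

end Pool.Agent.Results.MP_57341d_ag.AbelianVarieties
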