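import Pool.Agent.MP_57341d_ag.H42.CM

/-! The period conjecture for the motive `Hom_E (h¹ A₁, h¹ A₂)`, where `A₁`, `A₂` have complex
multiplication by the CM field `E` and their CM types differ at exactly one place. -/

open Module GPC73 GPC42

namespace Pool.Agent.Results.MP_57341d_ag.CMAdjacent

theorem result {g N₁ N₂ : ℕ} (A₁ : AbVar g N₁) (A₂ : AbVar g N₂) (E : Type) [Field E]
    [NumberField E] [NumberField.IsCMField E] (b₁ b₂ : Basis (Fin (2 * g)) ℚ E)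
    (Φ₁ Φ₂ : Set (E →+* ℂ)) (h₁ : IsCM A₁ b₁ Φ₁) (h₂ : IsCM A₂ b₂ Φ₂)
    (h : (Φ₁ \ Φ₂).ncard = 1) :
    ∃ (Y : Basis (Fin (2 * g)) ℚ (homE b₁ b₂)) (δ : Matrix (Fin (2 * g)) (Fin (2 * g)) ℝ),
      (∀ j, A₂.J * (Y j).1.map (Rat.cast : ℚ → ℝ) - (Y j).1.map (Rat.cast : ℚ → ℝ) * A₁.J =
        ∑ k, δ j k • (Y k).1.map (Rat.cast : ℚ → ℝ)) ∧
      finrank ℚ (hull δ) = g ∧
      Algebra.trdeg ℚ (perHom A₁ A₂ (homE b₁ b₂)) = finrank ℚ (hull δ) := by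
  obtain ⟨Y, δ, h1, h2⟩ := exists_delta h₁ h₂ h
  exact ⟨Y, δ, h1, h2, h2.symm ▸ le_antisymm (hom_upper h₁ h₂) (hom_lower h₁ h₂ h)⟩

end Pool.Agent.Results.MP_57341d_ag.CMAdjacent
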