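import Pool.Agent.MP_57341d_ag.Mg.H96_Final

/-! The period conjecture for `h¹(E₁) ⊗ h¹(E₂)(1)`, `E₁`, `E₂` non-isogenous elliptic curves with
complex multiplication. -/

open Complex GPC96

namespace Pool.Agent.Results.MP_57341d_ag.CMPairs

theorem result (L₁ L₂ : PeriodPair)
    (h₁ : IsAlgebraic ℚ L₁.g₂ ∧ IsAlgebraic ℚ L₁.g₃) (h₂ : IsAlgebraic ℚ L₂.g₂ ∧ IsAlgebraic ℚ L₂.g₃)
    (cm₁ : ∃ μ : ℂ, μ.im ≠ 0 ∧ ∀ l ∈ L₁.lattice, μ * l ∈ L₁.lattice)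
    (cm₂ : ∃ μ : ℂ, μ.im ≠ 0 ∧ ∀ l ∈ L₂.lattice, μ * l ∈ L₂.lattice)
    (hni : ∀ μ : ℂ, (∀ l ∈ L₁.lattice, μ * l ∈ L₂.lattice) → μ = 0) :
    Algebra.trdeg ℚ (IntermediateField.adjoin ℚ
      {x : ℂ | ∃ p ∈ periods L₁, ∃ q ∈ periods L₂, x = p * q / (2 * Real.pi * I)}) = 2 :=
  cm_case L₁ L₂ h₁.1 h₁.2 h₂.1 h₂.2 cm₁ cm₂ hni

end Pool.Agent.Results.MP_57341d_ag.CMPairs
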