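import Pool.Agent.MP_57341d_ag.H42.CM

/-! The period conjecture for the motive `End h¹(A)`, where `A` has complex multiplication by a CM
field with an automorphism that moves exactly one element out of the CM type. -/

open Module GPC73 GPC42

namespace Pool.Agent.Results.MP_57341d_ag.CyclicCM

theorem result {g N : ℕ} (A : AbVar g N) (E : Type) [Field E] [NumberField E]
    [NumberField.IsCMField E] (b : Basis (Fin (2 * g)) ℚ E) (Φ : Set (E →+* ℂ)) (h : IsCM A b Φ)
    (γ : E ≃ₐ[ℚ] E) (hγ : {φ ∈ Φ | φ.comp (γ : E →+* E) ∉ Φ}.ncard = 1) :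
    finrank ℚ (hull A.J) = g ∧ Algebra.trdeg ℚ (A.perEnd Set.univ) = finrank ℚ (hull A.J) :=
  ⟨hull_cyc h γ hγ, (hull_cyc h γ hγ).symm ▸ le_antisymm (end_upper h) (end_lower h γ hγ)⟩

end Pool.Agent.Results.MP_57341d_ag.CyclicCM
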