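import Pool.Agent.MP_57341d_ag.Mg.H73_Fin

/-! The period conjecture for the motive of `ℚ[Δ]`-linear endomorphisms of `h¹(A)` when its
Mumford-Tate group has dimension two. -/

open Module GPC73

namespace Pool.Agent.Results.MP_57341d_ag.MTDimTwo

theorem result {g N : ℕ} (A : AbVar g N) (Δ : Matrix (Fin (2 * g)) (Fin (2 * g)) ℚ)
    (hΔ : Δ ∈ hull A.J)
    (hc : Δ.map (Rat.cast : ℚ → ℝ) * A.J = A.J * Δ.map (Rat.cast : ℚ → ℝ))
    (d : ℚ) (hs : Δ * Δ = -(d • 1))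
    (h : finrank ℚ (hull A.J) = 2 + finrank ℚ (Submodule.span ℚ {Δ})) :
    Algebra.trdeg ℚ (A.perEnd {Y | Y * Δ = Δ * Y}) = 2 :=
  mt_end hΔ hc hs h

end Pool.Agent.Results.MP_57341d_ag.MTDimTwo
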