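import Pool.Agent.MP_57341d_ag.Mg.H87_Main

/-!
Period conjecture in bounded degree for symplectic hypergeometric families.
-/

set_option autoImplicit false

namespace Pool.Agent.Results.MP_57341d_ag.SymplecticFamilies

open GPC Matrix

theorem result (h k r d c : ℕ) (hh : 1 ≤ h) (hc : 1 ≤ c) (α : Fin h → ℚ)
    (hα : ∀ i, 0 < α i ∧ α i < 1) :
    ∃ κ N0 : ℕ, ∀ (θ : Fin k → ℂ) (N L : ℕ), N0 ≤ N → L ^ κ ≤ N →
      ∃ B : Finset ℕ, B.card ≤ (k + 1) * r ∧ ∀ n : Fin r → ℕ, Function.Injective n →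
        (∀ i, n i ≤ N ∧ N < n i + L ∧ n i ∉ B) →
        ∀ P : MvPolynomial (Fin k ⊕ Fin r × Fin (2 * h) × Fin (2 * h)) ℚ, P.totalDegree ≤ d →
          MvPolynomial.aeval
            (Sum.elim θ fun e => (hgW α ((c : ℝ) / n e.1) e.2.1 e.2.2 : ℂ)) P = 0 →
          ∀ g : Fin r → Matrix (Fin (2 * h)) (Fin (2 * h)) ℂ,
            (∀ i, (g i)ᵀ * Jm h ℂ * g i = Jm h ℂ) →
            MvPolynomial.aeval (Sum.elim θ fun e =>
              ((hgW α ((c : ℝ) / n e.1)).map Complex.ofReal * g e.1) e.2.1 e.2.2) P = 0 := by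
  obtain ⟨κ, N0, H⟩ := few_exc hh hα hc k r d
  refine ⟨κ, N0 + 1, fun θ N L hN hL => ?_⟩
  have hL' : (max L 1) ^ κ ≤ N := by
    rcases le_total L 1 with h1 | h1
    · rw [max_eq_right h1, one_pow]; omega
    · rwa [max_eq_left h1]
  rcases hitting (fun n : Fin r → ℕ => Function.Injective n ∧
    (∀ i, n i ≤ N ∧ N < n i + max L 1) ∧ Exc α c d θ n) (fun n hn => hn.1) (k + 1)
    with ⟨B, hB, hB'⟩ | ⟨F, hF, hF'⟩
  · refine ⟨B, hB, fun n hn hnN P hP hP0 g hg => ?_⟩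
    by_contra hne
    obtain ⟨i, hi⟩ := hB' n ⟨hn, fun i => ⟨(hnN i).1, by have := (hnN i).2.1; omega⟩,
      P, hP, hP0, g, hg, hne⟩
    exact (hnN i).2.2 hi
  · exact absurd (fun b => (hF b).2.2)
      (H θ N (max L 1) (by omega) (le_max_right _ _) hL' F hF' fun b => (hF b).2.1)

end Pool.Agent.Results.MP_57341d_ag.SymplecticFamilies
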