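import Pool.Agent.MP_57341d_ag.H72.Pi

/-! The period conjecture for the weight two motives `(Λ_k Hom_E (h¹ A₁, h¹ A₂)) (-1)`, for all CM
subfields `k` of `E` that do not contain one exceptional subfield. -/

open Matrix Module NumberField GPC73 GPC42 GPC72

namespace Pool.Agent.Results.MP_57341d_ag.WithPi

open Classical in
theorem result {g N₁ N₂ : ℕ} (A₁ : AbVar g N₁) (A₂ : AbVar g N₂) (E : Type) [Field E]
    [NumberField E] [IsCMField E] (b₁ b₂ : Basis (Fin (2 * g)) ℚ E)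
    (Φ₁ Φ₂ : Set (E →+* ℂ)) (h₁ : IsCM A₁ b₁ Φ₁) (h₂ : IsCM A₂ b₂ Φ₂)
    (h : (Φ₁ \ Φ₂).ncard = 1) :
    ∃ k₀ : IntermediateField ℚ E, ¬ IsTotallyReal k₀ ∧
      ∀ k : IntermediateField ℚ E, IsCMField k → ¬ k₀ ≤ k → ∀ (m : ℕ) (c : Basis (Fin m) ℚ k),
        ∃ δ : Matrix (Fin m) (Fin m) ℝ,
          (∀ σ : k →+* ℂ, δ.map Complex.ofReal *ᵥ (fun j => σ (c j)) =
            (∑ φ with φ.comp (algebraMap k E) = σ, ((if φ ∈ Φ₂ then Complex.I else -Complex.I) -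
              if φ ∈ Φ₁ then Complex.I else -Complex.I)) • fun j => σ (c j)) ∧
          2 * finrank ℚ (hull δ) = m ∧
          Algebra.trdeg ℚ (perNorm A₁ A₂ b₁ b₂ k) = (finrank ℚ (hull δ) + 1 : ℕ) := by
  obtain ⟨k₀, h0, hk⟩ := with_pi h₁ h₂ h
  refine ⟨k₀, h0, fun k _ a m c => ?_⟩
  obtain ⟨δ, e, e'⟩ := hull_norm h₁ h₂ h k c
  exact ⟨δ, e, e', hk k inferInstance a _ (by rw [e', finrank_eq_card_basis c, Fintype.card_fin])⟩

end Pool.Agent.Results.MP_57341d_ag.WithPi
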